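import Pool.Agent.J6H86.LH.Main
import Pool.Agent.J6H86.LH.Dim

/-!
# MP_0e7dfd_ag : heights along orbits of endomorphisms: nothing between `log n` and `n`

`K` is a number field, `X = V(P) ∖ V(J) ⊂ ℙ^N` is a quasi-projective set given by two homogeneous
ideals `P`, `J`, `f : X → X` is a morphism (any morphism, not necessarily finite, étale or
dominant), `g : X → ℙ^M` is a morphism and `x ∈ X(K)`. We prove that exactly one of two things
can happen. Either the logarithmic height of `g (f^n x)` is at least `ε n` for infinitely many `n`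
(for some `ε > 0`), or the points `g (f^n x)` lie on a closed set of dimension at most `1`, all
their coordinate ratios are algebraic functions of `n`, and their heights are `O (log n)`.
In particular, if `dim X ≥ 2` and `x` has a Zariski dense orbit then
`limsup h (f^n x) / n > 0`; see `dense_orbit` below.
-/

set_option autoImplicit false

namespace Pool.Agent.Results.MP_0e7dfd_ag.LinearHeightGap

open Height Filter MvPolynomial

/-- `I` is a homogeneous ideal: it contains the homogeneous parts of its elements. -/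
def IsHomog {K : Type} [Field K] {N : ℕ} (I : Ideal (MvPolynomial (Fin (N + 1)) K)) : Prop :=
  ∀ G ∈ I, ∀ d, homogeneousComponent d G ∈ I

/-- The nonzero vector `p`, with entries in an extension `L` of `K`, gives a point of
`X = V(P) ∖ V(J)`: all elements of `P` vanish at `p` and some element of `J` does not. -/
def OnX {K : Type} [Field K] {N : ℕ} (P J : Ideal (MvPolynomial (Fin (N + 1)) K))
    {L : Type} [Field L] [Algebra K L] (p : Fin (N + 1) → L) : Prop :=
  p ≠ 0 ∧ (∀ G ∈ P, aeval p G = 0) ∧ ∃ G ∈ J, aeval p G ≠ 0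

/-- The tuples `F i = (F i 0 : ⋯ : F i M)` define a morphism from `X = V(P) ∖ V(J)` to `ℙ^M`. -/
structure IsMorphism {K : Type} [Field K] {N M k : ℕ}
    (P J : Ideal (MvPolynomial (Fin (N + 1)) K))
    (F : Fin k → Fin (M + 1) → MvPolynomial (Fin (N + 1)) K) : Prop where
  /-- the entries of each tuple are forms of the same degree -/
  homog : ∀ i, ∃ d, ∀ a, (F i a).IsHomogeneous d
  /-- any two of the tuples are proportional at every geometric point of `X` -/
  compat : ∀ p : Fin (N + 1) → AlgebraicClosure K, OnX P J p → ∀ i j a b,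
    aeval p (F i a) * aeval p (F j b) = aeval p (F i b) * aeval p (F j a)
  /-- at every geometric point of `X` at least one of the tuples is nonzero -/
  total : ∀ p : Fin (N + 1) → AlgebraicClosure K, OnX P J p → ∃ i a, aeval p (F i a) ≠ 0

/-- The morphism given by the tuples `F i` maps `X` to itself (on geometric points). -/
def MapsXToX {K : Type} [Field K] {N k : ℕ} (P J : Ideal (MvPolynomial (Fin (N + 1)) K))
    (F : Fin k → Fin (N + 1) → MvPolynomial (Fin (N + 1)) K) : Prop :=
  ∀ p : Fin (N + 1) → AlgebraicClosure K, OnX P J p → ∀ i, (∃ a, aeval p (F i a) ≠ 0) →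
    OnX P J fun a => aeval p (F i a)

/-- The nonzero vector `q` gives the image, under the morphism with tuples `F i`, of the point
given by `p`. -/
def IsImage {K : Type} [Field K] {N M k : ℕ}
    (F : Fin k → Fin (M + 1) → MvPolynomial (Fin (N + 1)) K)
    (p : Fin (N + 1) → K) (q : Fin (M + 1) → K) : Prop :=
  q ≠ 0 ∧ ∀ i a b, eval p (F i a) * q b = eval p (F i b) * q a

/-- The ideal of the Zariski closure of the set of points `[z n]` of `ℙ^M`: all polynomials
which vanish on the lines through the vectors `z n`. (So `ringKrullDim` of the quotient by it is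
one more than the dimension of the closure of `{[z n]}` in `ℙ^M`.) -/
def closureIdeal {K : Type} [Field K] {M : ℕ} (z : ℕ → Fin (M + 1) → K) :
    Ideal (MvPolynomial (Fin (M + 1)) K) where
  carrier := {G | ∀ (n : ℕ) (c : K), eval (c • z n) G = 0}
  add_mem' h1 h2 n c := by rw [map_add, h1, h2, add_zero]
  zero_mem' n c := map_zero _
  smul_mem' r G h n c := by rw [smul_eq_mul, map_mul, h n c, mul_zero]

/-- evaluation at a vector over `K`, computed in an extension -/
lemma aeval_ext {K L : Type} [Field K] [Field L] [Algebra K L] {N : ℕ} (p : Fin (N + 1) → K)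
    (G : MvPolynomial (Fin (N + 1)) K) :
    aeval (fun a => algebraMap K L (p a)) G = algebraMap K L (aeval p G) :=
  aeval_algebraMap_apply L p G

lemma onX_ext {K L : Type} [Field K] [Field L] [Algebra K L] {N : ℕ}
    (P J : Ideal (MvPolynomial (Fin (N + 1)) K)) (p : Fin (N + 1) → K) :
    OnX P J (fun a => algebraMap K L (p a)) ↔ OnX P J p := by
  have hinj := (algebraMap K L).injective
  unfold OnX
  refine and_congr (not_congr ?_) (and_congr ?_ ?_)
  · constructor
    · intro h
      funext a
      exact hinj ((congrFun h a).trans (map_zero _).symm)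
    · intro h
      rw [h]
      funext a
      exact map_zero _
  · refine forall₂_congr fun G _ => ?_
    rw [aeval_ext, map_eq_zero]
  · refine exists_congr fun G => and_congr_right fun _ => ?_
    rw [aeval_ext, Ne, map_eq_zero]

/-- `OnX` does not depend on the choice of the vector in its line -/
lemma onX_smul {K : Type} [Field K] {N : ℕ} {P J : Ideal (MvPolynomial (Fin (N + 1)) K)}
    (hP : IsHomog P) (hJ : IsHomog J) {p q : Fin (N + 1) → K} {μ : K} (hμ : μ ≠ 0)
    (h : ∀ a, p a = μ * q a) (hp : OnX P J p) : OnX P J q := by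
  have hq : ∀ (d : ℕ) (G : MvPolynomial (Fin (N + 1)) K),
      aeval p (homogeneousComponent d G) = μ ^ d * aeval q (homogeneousComponent d G) := by
    intro d G
    have e : p = fun a => μ * q a := funext h
    have h1 := Pool.Agent.J6H86.LH.eval_scale (homogeneousComponent d G) d
      (homogeneousComponent_isHomogeneous d G) (c := μ) (x := q)
    rw [e]
    exact h1
  refine ⟨fun h0 => hp.1 (funext fun a => by rw [h, h0]; exact mul_zero μ), ?_, ?_⟩
  · intro G hG
    rw [← sum_homogeneousComponent G, map_sum]
    refine Finset.sum_eq_zero fun d _ => ?_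
    have h1 := hp.2.1 _ (hP G hG d)
    rw [hq] at h1
    exact (mul_eq_zero.1 h1).resolve_left (pow_ne_zero _ hμ)
  · obtain ⟨G, hG, hne⟩ := hp.2.2
    rw [← sum_homogeneousComponent G, map_sum] at hne
    obtain ⟨d, -, hd⟩ := Finset.exists_ne_zero_of_sum_ne_zero hne
    rw [hq] at hd
    exact ⟨_, hJ G hG d, right_ne_zero_of_mul hd⟩

open scoped Polynomial Polynomial.Bivariate in
/-- **Heights along an orbit grow at least linearly (infinitely often), or else the orbit is
contained in a curve and its heights are `O(log n)`.** -/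
theorem result {K : Type} [Field K] [NumberField K] {N M k l : ℕ}
    (P J : Ideal (MvPolynomial (Fin (N + 1)) K)) (hP : IsHomog P) (hJ : IsHomog J)
    -- the morphism `f : X → X`
    (F : Fin k → Fin (N + 1) → MvPolynomial (Fin (N + 1)) K)
    (hF : IsMorphism P J F) (hFX : MapsXToX P J F)
    -- the morphism `g : X → ℙ^M`
    (g : Fin l → Fin (M + 1) → MvPolynomial (Fin (N + 1)) K) (hg : IsMorphism P J g)
    -- the orbit `x n = f^n x`, and the values `z n = g (f^n x)`
    (x : ℕ → Fin (N + 1) → K) (hx0 : OnX P J (x 0)) (hx : ∀ n, IsImage F (x n) (x (n + 1)))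
    (z : ℕ → Fin (M + 1) → K) (hz : ∀ n, IsImage g (x n) (z n)) :
    (∃ ε : ℝ, 0 < ε ∧ ∃ᶠ n : ℕ in atTop, ε * (n : ℝ) ≤ logHeight (z n)) ∨
    ((∃ C : ℝ, ∀ n : ℕ, logHeight (z n) ≤ C * Real.log (n + 2)) ∧
      ringKrullDim (MvPolynomial (Fin (M + 1)) K ⧸ closureIdeal z) ≤ 2 ∧
      ∀ a b, ∃ R : K[X][Y], R ≠ 0 ∧ ∀ n : ℕ, z n a ≠ 0 →
        R.evalEval (n : K) (z n b / z n a) = 0) := by
  by_cases hA : ∃ ε : ℝ, 0 < ε ∧ ∃ᶠ n : ℕ in atTop, ε * (n : ℝ) ≤ logHeight (z n)
  · exact Or.inl hA
  right
  push Not at hA
  -- all points of the orbit are in `X`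
  have hxX : ∀ n, OnX P J (x n) := by
    intro n
    induction n with
    | zero => exact hx0
    | succ n ih =>
      have h1 := (onX_ext (L := AlgebraicClosure K) P J (x n)).2 ih
      obtain ⟨i, a, hia⟩ := hF.total _ h1
      have h2 := hFX _ h1 i ⟨a, hia⟩
      have h3 : OnX P J fun a => aeval (x n) (F i a) := by
        rw [← onX_ext (L := AlgebraicClosure K)]
        convert h2 using 2 with b
        rw [aeval_ext]
      rw [aeval_ext, Ne, map_eq_zero] at hia
      -- the two vectors are proportional
      obtain ⟨hne, hprop⟩ := hx n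
      obtain ⟨b, hb⟩ := Function.ne_iff.1 hne
      have hb' : x (n + 1) b ≠ 0 := hb
      have hFb : eval (x n) (F i b) ≠ 0 := by
        intro h0
        have h4 := hprop i a b
        rw [h0, zero_mul] at h4
        exact mul_ne_zero hia hb' h4
      refine onX_smul hP hJ (μ := eval (x n) (F i b) / x (n + 1) b) (div_ne_zero hFb hb')
        (fun c => ?_) h3
      have h4 := hprop i c b
      change eval (x n) (F i c) = _
      field_simp
      exact h4
  have hrel := Pool.Agent.J6H86.LH.rel_of_slow P J hP F g hF.homog hg.homog hF.total hg.total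
    hFX x hxX (fun n => (hx n).2) z (fun n => (hz n).1) (fun n => (hz n).2)
    (fun ε hε => by
      have := hA ε hε
      filter_upwards [this] with n hn
      exact hn)
  refine ⟨Pool.Agent.J6H86.LH.lg_of_rel z (fun n => (hz n).1) hrel, ?_, hrel⟩
  refine Pool.Agent.J6H86.LH.dim_le_of_ratios z (fun a b c => ?_) _ fun G hG => hG
  obtain ⟨R₁, h1, e1⟩ := hrel a b
  obtain ⟨R₂, h2, e2⟩ := hrel a c
  exact Pool.Agent.J6H86.LH.alg_dep (fun n => z n a) (fun n => z n b) (fun n => z n c) R₁ R₂ h1 h2
    e1 e2

/-- The special case `g = id`: if the orbit of `x` is Zariski dense in `X` and `dim X ≥ 2`, then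
`limsup h (f^n x) / n > 0`. -/
theorem dense_orbit {K : Type} [Field K] [NumberField K] {N k : ℕ}
    (P J : Ideal (MvPolynomial (Fin (N + 1)) K)) (hP : IsHomog P) (hJ : IsHomog J)
    (F : Fin k → Fin (N + 1) → MvPolynomial (Fin (N + 1)) K)
    (hF : IsMorphism P J F) (hFX : MapsXToX P J F)
    (x : ℕ → Fin (N + 1) → K) (hx0 : OnX P J (x 0)) (hx : ∀ n, IsImage F (x n) (x (n + 1)))
    (hdense : closureIdeal x ≤ P)
    (hdim : 2 < ringKrullDim (MvPolynomial (Fin (N + 1)) K ⧸ P)) :
    ∃ ε : ℝ, 0 < ε ∧ ∃ᶠ n : ℕ in atTop, ε * (n : ℝ) ≤ logHeight (x n) := by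
  have hxne : ∀ n, x n ≠ 0 := by
    intro n
    cases n with
    | zero => exact hx0.1
    | succ n => exact (hx n).1
  rcases result P J hP hJ F hF hFX (fun _ : Fin 1 => X)
    ⟨fun _ => ⟨1, fun a => isHomogeneous_X K a⟩, fun p _ i j a b => by
      simp only [aeval_X]
      exact mul_comm _ _, fun p hp => by
      obtain ⟨a, ha⟩ := Function.ne_iff.1 hp.1
      exact ⟨0, a, by rw [aeval_X]; exact ha⟩⟩ x hx0 hx x
    (fun n => ⟨hxne n, fun i a b => by rw [eval_X, eval_X]; exact mul_comm _ _⟩) with h | h
  · exact h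
  · exfalso
    refine absurd (lt_of_lt_of_le hdim (le_trans ?_ h.2.1)) (lt_irrefl _)
    exact ringKrullDim_le_of_surjective (Ideal.Quotient.factor hdense)
      (Ideal.Quotient.factor_surjective hdense)

end Pool.Agent.Results.MP_0e7dfd_ag.LinearHeightGap
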