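import Pool.Agent.J6H86.AG.Main
import Pool.Agent.J6H86.AG.Dim
import Pool.Agent.J6H86.AG.Sharp

/-!
# MP_0e7dfd_ag : integral orbits grow at a uniform rate, or are polynomial

`K` is a number field, `S` a finite set of finite places, `f` a polynomial map of the affine space
of dimension `N` with `S`-integral coefficients and `x` an orbit of `f` in `S`-integral points. For
every `S`-integral polynomial `G` the height of `G (f^n x)` is larger than `c n` for infinitely many
`n`, or `G (f^n x)` is a polynomial in `n` on each residue class modulo `M`, for large `n`. Here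
`c > 0` depends only on `N`, the degree of `K`, the number of places in `S` and a prime number with
no place above it in `S`; it does not depend on `f` (nor on its degree), on `x` and on `G`.
-/

set_option autoImplicit false

namespace Pool.Agent.Results.MP_0e7dfd_ag.UniformIntegralGap

open NumberField IsDedekindDomain Height Filter MvPolynomial

/-- `x` is an `S`-integer: it is integral at all finite places outside `S`. -/
def SIntegral {K : Type} [Field K] [NumberField K] (S : Finset (HeightOneSpectrum (𝓞 K)))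
    (x : K) : Prop :=
  ∀ v : HeightOneSpectrum (𝓞 K), v ∉ S → v.valuation K x ≤ 1

/-- the coefficients of `G` are `S`-integers -/
def SIntegralPoly {K : Type} [Field K] [NumberField K] (S : Finset (HeightOneSpectrum (𝓞 K)))
    {N : ℕ} (G : MvPolynomial (Fin N) K) : Prop :=
  ∀ m, SIntegral S (coeff m G)

/-- The number `p ^ (d (2 N + 1))`, where `d` is the degree of `K`. -/
noncomputable def size (K : Type) [Field K] [NumberField K] (p N : ℕ) : ℕ :=
  p ^ (Module.finrank ℚ K * (2 * N + 1))

/-- The constant `d / (6 p ^ (d (2 N + 1)) (d + s))`, where `d` is the degree of `K` and `s` is the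
number of places in `S`. -/
noncomputable def rate {K : Type} [Field K] [NumberField K]
    (S : Finset (HeightOneSpectrum (𝓞 K))) (p N : ℕ) : ℝ :=
  (Module.finrank ℚ K : ℝ) / (6 * (size K p N : ℝ) * (Module.finrank ℚ K + S.card))

/-- the ideal of the Zariski closure of the set of points `x n` -/
def closureIdeal {K : Type} [Field K] {N : ℕ} (x : ℕ → Fin N → K) :
    Ideal (MvPolynomial (Fin N) K) where
  carrier := {G | ∀ n, eval (x n) G = 0}
  add_mem' h1 h2 n := by rw [map_add, h1, h2, add_zero]
  zero_mem' n := map_zero _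
  smul_mem' r G h n := by rw [smul_eq_mul, map_mul, h n, mul_zero]

lemma coeffs_of {K : Type} [Field K] [NumberField K] {S : Finset (HeightOneSpectrum (𝓞 K))}
    {N : ℕ} {G : MvPolynomial (Fin N) K} (h : SIntegralPoly S G) :
    ∀ c ∈ G.coeffs, Pool.Agent.J6H86.AG.SInt S c := by
  intro c hc
  obtain ⟨m, -, rfl⟩ := mem_coeffs_iff.1 hc
  exact h m

lemma rate_mul {K : Type} [Field K] [NumberField K] (S : Finset (HeightOneSpectrum (𝓞 K)))
    (p N n : ℕ) : rate S p N * n = (Module.finrank ℚ K : ℝ) * n /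
      (6 * (p : ℝ) ^ (Module.finrank ℚ K * (2 * Fintype.card (Fin N) + 1)) *
        (Module.finrank ℚ K + S.card)) := by
  rw [rate, size, Fintype.card_fin]
  push_cast
  ring

/-- **A uniform gap for integral orbits.** -/
theorem result :
    (∀ (K : Type) [Field K] [NumberField K] (p : ℕ) [Fact p.Prime]
      (S : Finset (HeightOneSpectrum (𝓞 K))) (_ : ∀ v ∈ S, (p : 𝓞 K) ∉ v.asIdeal) (N : ℕ)
      -- the polynomial map `f` and the orbit `x n = f^n (x 0)`, both `S`-integral
      (f : Fin N → MvPolynomial (Fin N) K) (_ : ∀ a, SIntegralPoly S (f a))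
      (x : ℕ → Fin N → K) (_ : ∀ a, SIntegral S (x 0 a)) (_ : ∀ n a, x (n + 1) a = eval (x n) (f a)),
      0 < rate S p N ∧
      (∃ M : ℕ, 0 < M ∧ M ≤ 2 * size K p N ∧ ∀ G : MvPolynomial (Fin N) K, SIntegralPoly S G →
        (∃ᶠ n : ℕ in atTop, rate S p N * n < logHeight₁ (eval (x n) G)) ∨
        ∃ n₀ : ℕ, ∀ i : ℕ, ∃ P : Polynomial K, ∀ n ≥ n₀, eval (x (M * n + i)) G = P.eval (n : K)) ∧
      ((∃ᶠ n : ℕ in atTop, ∃ a, rate S p N * n < logHeight₁ (x n a)) ∨
        ringKrullDim (MvPolynomial (Fin N) K ⧸ closureIdeal x) ≤ 1)) ∧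
    -- the dependence of the rate on the number of variables is exponential
    ∀ N : ℕ, ∃ (f : Option (Fin N) → MvPolynomial (Option (Fin N)) ℤ)
      (x : ℕ → Option (Fin N) → ℤ), (∀ n a, x (n + 1) a = eval (x n) (f a)) ∧
        (∀ n i, x n (some i) = 0 ∨ x n (some i) = 1) ∧ ∀ n, x n none = 2 ^ (n / 2 ^ N) := by
  refine ⟨?_, Pool.Agent.J6H86.AG.sharp⟩
  intro K _ _ p hp S hS N f hf x hx0 hx
  obtain ⟨M, hM, hMle, H⟩ := Pool.Agent.J6H86.AG.main p S hS f (fun a => coeffs_of (hf a)) x hx0 hx
  have hd : (0 : ℝ) < Module.finrank ℚ K := by exact_mod_cast Module.finrank_pos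
  have hkap : Pool.Agent.J6H86.AG.kap p ≤ 2 := by
    unfold Pool.Agent.J6H86.AG.kap
    split_ifs <;> norm_num
  have hG : ∀ G : MvPolynomial (Fin N) K, SIntegralPoly S G →
      (∃ᶠ n : ℕ in atTop, rate S p N * n < logHeight₁ (eval (x n) G)) ∨
        ∃ n₀ : ℕ, ∀ i : ℕ, ∃ P : Polynomial K, ∀ n ≥ n₀,
          eval (x (M * n + i)) G = P.eval (n : K) := by
    intro G hG
    by_cases h : ∃ᶠ n : ℕ in atTop, rate S p N * n < logHeight₁ (eval (x n) G)
    · exact Or.inl h
    · refine Or.inr (H G (coeffs_of hG) ?_)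
      rw [not_frequently] at h
      filter_upwards [h] with n hn
      rw [← rate_mul]
      exact not_lt.1 hn
  refine ⟨?_, ⟨M, hM, ?_, hG⟩, ?_⟩
  · have hp0 : (0 : ℝ) < p := by exact_mod_cast hp.out.pos
    rw [rate, size]
    push_cast
    positivity
  · refine hMle.trans ?_
    rw [Fintype.card_fin, size]
    exact Nat.mul_le_mul_right _ hkap
  · by_cases h : ∃ᶠ n : ℕ in atTop, ∃ a, rate S p N * n < logHeight₁ (x n a)
    · exact Or.inl h
    right
    have hX : ∀ a, SIntegralPoly S (X a : MvPolynomial (Fin N) K) := by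
      intro a m v _
      rw [coeff_X]
      split_ifs
      · rw [map_one]
      · rw [map_zero]
        exact zero_le_one
    have hslow : ∀ a, ∃ n₀ : ℕ, ∀ i : ℕ, ∃ P : Polynomial K, ∀ n ≥ n₀,
        x (M * n + i) a = P.eval (n : K) := by
      intro a
      rcases hG (X a) (hX a) with h1 | h1
      · exfalso
        apply h
        refine h1.mono fun n hn => ⟨a, ?_⟩
        rwa [eval_X] at hn
      · simpa only [eval_X] using h1
    choose n₀ hn₀ using hslow
    refine Pool.Agent.J6H86.AG.dim_le_one _ fun a b => ?_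
    obtain ⟨R, hR, hR0⟩ := Pool.Agent.J6H86.AG.dep_seq (fun n => x n a) (fun n => x n b) M
      (max (n₀ a) (n₀ b)) hM
      (fun i => by
        obtain ⟨P, hP⟩ := hn₀ a i
        exact ⟨P, fun n hn => hP n (le_trans (le_max_left _ _) hn)⟩)
      (fun i => by
        obtain ⟨P, hP⟩ := hn₀ b i
        exact ⟨P, fun n hn => hP n (le_trans (le_max_right _ _) hn)⟩)
    refine ⟨R, hR, fun n => ?_⟩
    have h3 : (aeval (x n) : MvPolynomial (Fin N) K →ₐ[K] K).comp
        (aeval ![(X a : MvPolynomial (Fin N) K), X b]) =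
        (aeval ![x n a, x n b] : MvPolynomial (Fin 2) K →ₐ[K] K) := by
      ext i
      fin_cases i <;> simp
    have h4 := AlgHom.congr_fun h3 R
    rw [AlgHom.comp_apply] at h4
    have h5 : eval (x n) (aeval ![(X a : MvPolynomial (Fin N) K), X b] R) =
        aeval (x n) (aeval ![(X a : MvPolynomial (Fin N) K), X b] R) := by
      rw [← coe_aeval_eq_eval]
      rfl
    rw [h5, h4, ← RingHom.coe_coe, coe_aeval_eq_eval]
    exact hR0 n

end Pool.Agent.Results.MP_0e7dfd_ag.UniformIntegralGap
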